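import Pool.Agent.Zk79.LN.Tf

/-! Products of sines determine the set: conjugation. -/

set_option autoImplicit false

namespace Pool.Agent.Zk9.LN

open Finset Pool.Agent.Zk79.LN

/-- The primitive root of unity. -/
noncomputable def zt (g : ℕ) : ℂ := Complex.exp (2 * Real.pi * Complex.I / ((2 * g : ℕ) : ℂ))

theorem zt_pow {g a : ℕ} (hg : g ≠ 0) (ha : a ∣ g) (t : ℕ) :
    (zt g ^ t) ^ (g / a) = Complex.exp (((Real.pi * t / a : ℝ) : ℂ) * Complex.I) := by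
  obtain ⟨c, rfl⟩ := ha
  have ha0 : a ≠ 0 := fun h => hg (by rw [h, zero_mul])
  have hc0 : c ≠ 0 := fun h => hg (by rw [h, mul_zero])
  rw [Nat.mul_div_cancel_left _ (Nat.pos_of_ne_zero ha0), ← pow_mul, zt, ← Complex.exp_nat_mul]
  congr 1
  have h1 : (a : ℂ) ≠ 0 := by exact_mod_cast ha0
  have h2 : (c : ℂ) ≠ 0 := by exact_mod_cast hc0
  push_cast
  field_simp

theorem factor {g a : ℕ} (hg : g ≠ 0) (ha : a ∣ g) (t : ℕ) :
    (zt g ^ t) ^ (2 * (g / a)) - 1 =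
      (2 * Complex.I) * (zt g ^ t) ^ (g / a) * (Real.sin (Real.pi * t / a) : ℂ) := by
  rw [mul_comm 2 (g / a), pow_mul, zt_pow hg ha]
  obtain ⟨x, hx⟩ : ∃ x : ℂ, x = ((Real.pi * t / a : ℝ) : ℂ) := ⟨_, rfl⟩
  rw [Complex.ofReal_sin, ← hx, Complex.sin]
  have h1 : Complex.exp (x * Complex.I) * Complex.exp (-x * Complex.I) = 1 := by
    rw [← Complex.exp_add]
    have : x * Complex.I + -x * Complex.I = 0 := by ring
    rw [this, Complex.exp_zero]
  have hI := Complex.I_mul_I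
  linear_combination h1 + (Complex.exp (x * Complex.I) ^ 2 -
    Complex.exp (x * Complex.I) * Complex.exp (-x * Complex.I)) * hI

/-- The polynomial belonging to a set. -/
noncomputable def Pl (g : ℕ) (A : Finset ℕ) : Polynomial ℤ :=
  ∏ a ∈ A, (Polynomial.X ^ (2 * (g / a)) - 1)

theorem Pl_val {g : ℕ} (hg : g ≠ 0) {A : Finset ℕ} (hA : ∀ a ∈ A, a ∣ g) (t : ℕ) :
    Polynomial.aeval (zt g ^ t) (Pl g A) =
      (2 * Complex.I) ^ A.card * (zt g ^ t) ^ (∑ a ∈ A, g / a) * (sp A t : ℂ) := by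
  unfold Pl sp
  rw [map_prod]
  simp only [map_sub, map_pow, Polynomial.aeval_X, map_one]
  rw [prod_congr rfl fun a ha => factor hg (hA a ha) t, prod_mul_distrib, prod_mul_distrib,
    prod_const, ← prod_pow_eq_pow_sum, Complex.ofReal_prod]

/-- S1 -/
theorem sp_conj {A A' : Finset ℕ} (hA : ∀ a ∈ A, 2 ≤ a) (hA' : ∀ a ∈ A', 2 ≤ a)
    (hprod : ∏ a ∈ A, a = ∏ a ∈ A', a) (hcard : A.card = A'.card) (h : sp A 1 = sp A' 1) {t : ℕ}
    (ht : t.Coprime (2 * ∏ a ∈ A, a)) : sp A t = sp A' t := by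
  obtain ⟨g, hgd⟩ : ∃ g, g = ∏ a ∈ A, a := ⟨_, rfl⟩
  have hg : g ≠ 0 := by
    rw [hgd]
    exact (prod_pos fun a ha => by have := hA a ha; omega).ne'
  have d1 : ∀ a ∈ A, a ∣ g := fun a ha => hgd ▸ dvd_prod_of_mem (fun a => a) ha
  have d2 : ∀ a ∈ A', a ∣ g := fun a ha => by
    rw [hgd, hprod]
    exact dvd_prod_of_mem (fun a => a) ha
  rw [← hgd] at ht
  have hz : IsPrimitiveRoot (zt g) (2 * g) := Complex.isPrimitiveRoot_exp (2 * g) (by omega)
  have hzt : IsPrimitiveRoot (zt g ^ t) (2 * g) := hz.pow_of_coprime t ht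
  have hz0 : zt g ≠ 0 := Complex.exp_ne_zero _
  obtain ⟨n, hn⟩ : ∃ n, n = ∑ a ∈ A, g / a := ⟨_, rfl⟩
  obtain ⟨n', hn'⟩ : ∃ n', n' = ∑ a ∈ A', g / a := ⟨_, rfl⟩
  obtain ⟨Q, hQ⟩ : ∃ Q : Polynomial ℤ, Q = Polynomial.X ^ n' * Pl g A - Polynomial.X ^ n * Pl g A' :=
    ⟨_, rfl⟩
  have hval : ∀ s : ℕ, Polynomial.aeval (zt g ^ s) Q = (2 * Complex.I) ^ A.card *
      (zt g ^ s) ^ (n + n') * ((sp A s : ℂ) - (sp A' s : ℂ)) := by
    intro s
    rw [hQ, map_sub, map_mul, map_mul, map_pow, map_pow, Polynomial.aeval_X, Pl_val hg d1,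
      Pl_val hg d2, ← hn, ← hn', ← hcard, pow_add]
    ring
  have hroot : Polynomial.aeval (zt g) Q = 0 := by
    have h1 := hval 1
    rw [pow_one, Nat.cast_one, h, sub_self, mul_zero] at h1
    exact h1
  have hdvd : Polynomial.cyclotomic (2 * g) ℤ ∣ Q := by
    rw [Polynomial.cyclotomic_eq_minpoly hz (by omega)]
    exact minpoly.isIntegrallyClosed_dvd (hz.isIntegral (by omega)) hroot
  have hroot' : Polynomial.aeval (zt g ^ t) Q = 0 := by
    obtain ⟨R, hR⟩ := hdvd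
    have h2 : Polynomial.aeval (zt g ^ t) (Polynomial.cyclotomic (2 * g) ℤ) = 0 := by
      have h3 := hzt.isRoot_cyclotomic (by omega)
      rw [Polynomial.IsRoot.def, ← Polynomial.map_cyclotomic_int, Polynomial.eval_map] at h3
      rw [Polynomial.aeval_def]
      exact h3
    rw [hR, map_mul, h2, zero_mul]
  rw [hval] at hroot'
  have h3 : (2 * Complex.I) ^ A.card * (zt g ^ t) ^ (n + n') ≠ 0 := by
    refine mul_ne_zero (pow_ne_zero _ ?_) (pow_ne_zero _ (pow_ne_zero _ hz0))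
    exact mul_ne_zero two_ne_zero Complex.I_ne_zero
  have h4 := (mul_eq_zero.1 hroot').resolve_left h3
  have h5 := sub_eq_zero.1 h4
  exact_mod_cast h5

end Pool.Agent.Zk9.LN
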