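import Pool.Agent.Zk79.LN.Tf

/-! Products of sines determine the set: the combinatorial part. -/

set_option autoImplicit false

namespace Pool.Agent.Zk9.LN

open Finset Pool.Agent.Zk79.LN

theorem odd_step {A A' : Finset ℕ} (hA : ∀ a ∈ A, 2 ≤ a)
    (hprod : ∏ a ∈ A, a = ∏ a ∈ A', a)
    (h1 : ∀ a ∈ A, ∀ b ∈ A', a.gcd b ≤ 2 ∨ a / a.gcd b ≤ 2)
    (h2 : ∀ a ∈ A, ∀ b ∈ A', a.gcd b ≤ 2 ∨ b / a.gcd b ≤ 2) {a : ℕ} (ha : a ∈ A)
    (ho : ¬ 2 ∣ a) : a ∈ A' ∨ 2 * a ∈ A' := by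
  have ha2 := hA a ha
  by_cases hall : ∀ b ∈ A', a.gcd b ≤ 2
  · exfalso
    have hco : a.Coprime (∏ b ∈ A', b) := by
      refine Nat.Coprime.prod_right fun b hb => ?_
      have h3 := hall b hb
      have h4 : 0 < a.gcd b := Nat.gcd_pos_of_pos_left _ (by omega)
      have h5 : a.gcd b ≠ 2 := fun h => ho (h ▸ Nat.gcd_dvd_left a b)
      change a.gcd b = 1
      omega
    have h3 : a ∣ ∏ b ∈ A', b := by
      rw [← hprod]
      exact dvd_prod_of_mem (fun a => a) ha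
    have h4 : a ∣ 1 := by
      have := Nat.dvd_gcd (dvd_refl a) h3
      rwa [hco] at this
    have := Nat.le_of_dvd one_pos h4
    omega
  · push Not at hall
    obtain ⟨b, hb, hc⟩ := hall
    obtain ⟨c, hcd⟩ : ∃ c, c = a.gcd b := ⟨_, rfl⟩
    have h3 := (h1 a ha b hb).resolve_left (by omega)
    have h4 := (h2 a ha b hb).resolve_left (by omega)
    rw [← hcd] at h3 h4 hc
    obtain ⟨k, hk⟩ : c ∣ a := hcd ▸ Nat.gcd_dvd_left a b
    obtain ⟨m, hm⟩ : c ∣ b := hcd ▸ Nat.gcd_dvd_right a b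
    have hc0 : 0 < c := by omega
    rw [hk, Nat.mul_div_cancel_left _ hc0] at h3
    rw [hm, Nat.mul_div_cancel_left _ hc0] at h4
    have hk1 : k = 1 := by
      have k0 : k ≠ 0 := by
        rintro rfl
        omega
      have k2 : k ≠ 2 := by
        rintro rfl
        exact ho ⟨c, by rw [hk, mul_comm]⟩
      omega
    have hac : a = c := by rw [hk, hk1, mul_one]
    have m0 : m ≠ 0 := by
      rintro rfl
      rw [mul_zero] at hm
      rw [hm, Nat.gcd_zero_right] at hcd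
      -- `b = 0` gives `b / c = 0`
      have hp : 0 < ∏ a ∈ A, a := prod_pos fun x hx => by have := hA x hx; omega
      rw [hprod, prod_eq_zero hb hm] at hp
      omega
    have hm' : m = 1 ∨ m = 2 := by omega
    rcases hm' with rfl | rfl
    · left
      rw [hac, ← mul_one c, ← hm]
      exact hb
    · right
      rw [hac, mul_comm, ← hm]
      exact hb

theorem not_both {A : Finset ℕ} (cA : ∀ a ∈ A, ∀ b ∈ A, a ≠ b → a.Coprime b) {a : ℕ}
    (ha : 2 ≤ a) (h : 2 * a ∈ A) : a ∉ A := by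
  intro h'
  have h1 := cA a h' (2 * a) h (by omega)
  have h2 : a ∣ a.gcd (2 * a) := Nat.dvd_gcd dvd_rfl (dvd_mul_left a 2)
  rw [h1] at h2
  have := Nat.le_of_dvd one_pos h2
  omega

theorem even_unique {A : Finset ℕ} (cA : ∀ a ∈ A, ∀ b ∈ A, a ≠ b → a.Coprime b) {a b : ℕ}
    (ha : a ∈ A) (hb : b ∈ A) (ea : 2 ∣ a) (eb : 2 ∣ b) : a = b := by
  by_contra hab
  have h1 := cA a ha b hb hab
  have h2 : 2 ∣ a.gcd b := Nat.dvd_gcd ea eb
  rw [h1] at h2
  omega

theorem no_one {A A' : Finset ℕ} (hA : ∀ a ∈ A, 2 ≤ a)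
    (cA' : ∀ a ∈ A', ∀ b ∈ A', a ≠ b → a.Coprime b)
    (hprod : ∏ a ∈ A, a = ∏ a ∈ A', a) (hcard : A.card = A'.card) {a : ℕ} (ha : a ∈ A)
    (h2a : 2 * a ∈ A') (hodd : ∀ b ∈ A', ¬ 2 ∣ b → b ∈ A) : False := by
  have ha2 := hA a ha
  have haA' := not_both cA' ha2 h2a
  have hsub : A'.erase (2 * a) ⊆ A.erase a := by
    intro x hx
    rw [mem_erase] at hx ⊢
    refine ⟨fun h => haA' (h ▸ hx.2), hodd x hx.2 fun he => hx.1 ?_⟩
    exact even_unique cA' hx.2 h2a he (dvd_mul_right 2 a)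
  have heq : A'.erase (2 * a) = A.erase a := by
    refine eq_of_subset_of_card_le hsub ?_
    rw [card_erase_of_mem ha, card_erase_of_mem h2a, hcard]
  have e1 := mul_prod_erase A (fun x => x) ha
  have e2 := mul_prod_erase A' (fun x => x) h2a
  rw [heq] at e2
  have hp : 0 < ∏ x ∈ A.erase a, x := prod_pos fun x hx => by
    have := hA x (mem_of_mem_erase hx)
    omega
  have e3 : a * ∏ x ∈ A.erase a, x = 2 * a * ∏ x ∈ A.erase a, x := by
    rw [e1, e2, hprod]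
  have e4 : 0 < a * ∏ x ∈ A.erase a, x := Nat.mul_pos (by omega) hp
  have e5 : 2 * a * ∏ x ∈ A.erase a, x = 2 * (a * ∏ x ∈ A.erase a, x) := by ring
  omega

theorem sin_eq {a b : ℕ} (ha : 2 ≤ a) (hb : 2 ≤ b)
    (h : Real.sin (Real.pi * 1 / a) * Real.sin (Real.pi * 1 / (2 * b : ℕ)) =
      Real.sin (Real.pi * 1 / (2 * a : ℕ)) * Real.sin (Real.pi * 1 / b)) : a = b := by
  have hpi := Real.pi_pos
  have ha' : (2 : ℝ) ≤ a := by exact_mod_cast ha
  have hb' : (2 : ℝ) ≤ b := by exact_mod_cast hb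
  obtain ⟨x, hx⟩ : ∃ x, x = Real.pi * 1 / (2 * a : ℕ) := ⟨_, rfl⟩
  obtain ⟨y, hy⟩ : ∃ y, y = Real.pi * 1 / (2 * b : ℕ) := ⟨_, rfl⟩
  have hx' : x = Real.pi / (2 * a) := by rw [hx]; push_cast; ring
  have hy' : y = Real.pi / (2 * b) := by rw [hy]; push_cast; ring
  have hx2 : Real.pi * 1 / a = 2 * x := by
    rw [hx']
    field_simp
  have hy2 : Real.pi * 1 / b = 2 * y := by
    rw [hy']
    field_simp
  have x0 : 0 < x := by rw [hx']; positivity
  have y0 : 0 < y := by rw [hy']; positivity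
  have x1 : x < Real.pi := by
    rw [hx', div_lt_iff₀ (by positivity)]
    nlinarith
  have y1 : y < Real.pi := by
    rw [hy', div_lt_iff₀ (by positivity)]
    nlinarith
  rw [hx2, hy2, ← hx, ← hy, Real.sin_two_mul, Real.sin_two_mul] at h
  have sx := Real.sin_pos_of_pos_of_lt_pi x0 x1
  have sy := Real.sin_pos_of_pos_of_lt_pi y0 y1
  have hcos : Real.cos x = Real.cos y := by
    have h0 : 2 * (Real.sin x * Real.sin y) ≠ 0 := by positivity
    apply mul_left_cancel₀ h0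
    linear_combination h
  have hxy : x = y := Real.injOn_cos ⟨x0.le, x1.le⟩ ⟨y0.le, y1.le⟩ hcos
  rw [hx', hy'] at hxy
  have h3 : (2 * (a : ℝ)) = 2 * b := by
    have h4 : (0 : ℝ) < 2 * a := by positivity
    have h5 : (0 : ℝ) < 2 * b := by positivity
    rw [div_eq_div_iff h4.ne' h5.ne'] at hxy
    exact (mul_left_cancel₀ hpi.ne' hxy).symm
  have h4 : (a : ℝ) = b := by linarith
  exact_mod_cast h4

theorem no_two {A A' : Finset ℕ} (hA : ∀ a ∈ A, 2 ≤ a) (hA' : ∀ a ∈ A', 2 ≤ a)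
    (cA : ∀ a ∈ A, ∀ b ∈ A, a ≠ b → a.Coprime b) (cA' : ∀ a ∈ A', ∀ b ∈ A', a ≠ b → a.Coprime b)
    (hcard : A.card = A'.card) (h : sp A 1 = sp A' 1)
    (hodd : ∀ b ∈ A', ¬ 2 ∣ b → b ∈ A ∨ 2 * b ∈ A) {a b : ℕ} (ha : a ∈ A)
    (h2a : 2 * a ∈ A') (hb : b ∈ A') (h2b : 2 * b ∈ A) (oa : ¬ 2 ∣ a) (ob : ¬ 2 ∣ b) : False := by
  have ha2 := hA a ha
  have hb2 := hA' b hb
  have haA' := not_both cA' ha2 h2a
  have hbA := not_both cA hb2 h2b
  have m1 : b ∈ A'.erase (2 * a) := by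
    rw [mem_erase]
    exact ⟨fun h => ob (h ▸ dvd_mul_right 2 a), hb⟩
  have m2 : 2 * b ∈ A.erase a := by
    rw [mem_erase]
    exact ⟨fun h => oa (h ▸ dvd_mul_right 2 b), h2b⟩
  have hsub : (A'.erase (2 * a)).erase b ⊆ (A.erase a).erase (2 * b) := by
    intro x hx
    rw [mem_erase, mem_erase] at hx ⊢
    obtain ⟨x1, x2, x3⟩ := hx
    have ox : ¬ 2 ∣ x := fun he => x2 (even_unique cA' x3 h2a he (dvd_mul_right 2 a))
    refine ⟨fun h => ox (h ▸ dvd_mul_right 2 b), fun h => haA' (h ▸ x3), ?_⟩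
    rcases hodd x x3 ox with h3 | h3
    · exact h3
    · exfalso
      have := even_unique cA h3 h2b (dvd_mul_right 2 x) (dvd_mul_right 2 b)
      exact x1 (by omega)
  have heq : (A'.erase (2 * a)).erase b = (A.erase a).erase (2 * b) := by
    refine eq_of_subset_of_card_le hsub ?_
    rw [card_erase_of_mem m1, card_erase_of_mem m2, card_erase_of_mem ha,
      card_erase_of_mem h2a, hcard]
  have e1 : sp A 1 = Real.sin (Real.pi * 1 / a) * (Real.sin (Real.pi * 1 / (2 * b : ℕ)) *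
      ∏ x ∈ (A.erase a).erase (2 * b), Real.sin (Real.pi * 1 / x)) := by
    unfold sp
    rw [mul_prod_erase (A.erase a) (fun x : ℕ => Real.sin (Real.pi * 1 / x)) m2,
      mul_prod_erase A (fun x : ℕ => Real.sin (Real.pi * 1 / x)) ha]
  have e2 : sp A' 1 = Real.sin (Real.pi * 1 / (2 * a : ℕ)) * (Real.sin (Real.pi * 1 / b) *
      ∏ x ∈ (A.erase a).erase (2 * b), Real.sin (Real.pi * 1 / x)) := by
    unfold sp
    rw [← heq, mul_prod_erase (A'.erase (2 * a)) (fun x : ℕ => Real.sin (Real.pi * 1 / x)) m1,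
      mul_prod_erase A' (fun x : ℕ => Real.sin (Real.pi * 1 / x)) h2a]
  have hR : ∏ x ∈ (A.erase a).erase (2 * b), Real.sin (Real.pi * 1 / x) ≠ 0 := by
    intro h0
    have := sp_one_pos hA
    rw [e1, h0, mul_zero, mul_zero] at this
    exact lt_irrefl _ this
  have h3 : a = b := by
    refine sin_eq ha2 hb2 (mul_right_cancel₀ hR ?_)
    rw [e1, e2] at h
    linear_combination h
  exact haA' (h3 ▸ hb)

/-- S2b -/
theorem sets_of_gcd {A A' : Finset ℕ} (hA : ∀ a ∈ A, 2 ≤ a) (hA' : ∀ a ∈ A', 2 ≤ a)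
    (cA : ∀ a ∈ A, ∀ b ∈ A, a ≠ b → a.Coprime b) (cA' : ∀ a ∈ A', ∀ b ∈ A', a ≠ b → a.Coprime b)
    (hprod : ∏ a ∈ A, a = ∏ a ∈ A', a) (hcard : A.card = A'.card) (h : sp A 1 = sp A' 1)
    (h1 : ∀ a ∈ A, ∀ b ∈ A', a.gcd b ≤ 2 ∨ a / a.gcd b ≤ 2)
    (h2 : ∀ a ∈ A, ∀ b ∈ A', a.gcd b ≤ 2 ∨ b / a.gcd b ≤ 2) : A = A' := by
  have s1 : ∀ a ∈ A, ¬ 2 ∣ a → a ∈ A' ∨ 2 * a ∈ A' := fun a ha ho =>
    odd_step hA hprod h1 h2 ha ho
  have s2 : ∀ b ∈ A', ¬ 2 ∣ b → b ∈ A ∨ 2 * b ∈ A := fun b hb ho =>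
    odd_step hA' hprod.symm (fun b hb a ha => by rw [Nat.gcd_comm]; exact h2 a ha b hb)
      (fun b hb a ha => by rw [Nat.gcd_comm]; exact h1 a ha b hb) hb ho
  by_cases t1 : ∃ a ∈ A, ¬ 2 ∣ a ∧ 2 * a ∈ A' <;> by_cases t2 : ∃ b ∈ A', ¬ 2 ∣ b ∧ 2 * b ∈ A
  · exfalso
    obtain ⟨a, ha, oa, h2a⟩ := t1
    obtain ⟨b, hb, ob, h2b⟩ := t2
    exact no_two hA hA' cA cA' hcard h s2 ha h2a hb h2b oa ob
  · exfalso
    obtain ⟨a, ha, oa, h2a⟩ := t1
    push Not at t2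
    exact no_one hA cA' hprod hcard ha h2a fun b hb ob => (s2 b hb ob).resolve_right (t2 b hb ob)
  · exfalso
    obtain ⟨b, hb, ob, h2b⟩ := t2
    push Not at t1
    exact no_one hA' cA hprod.symm hcard.symm hb h2b fun a ha oa =>
      (s1 a ha oa).resolve_right (t1 a ha oa)
  · push Not at t1 t2
    have r1 : ∀ a ∈ A, ¬ 2 ∣ a → a ∈ A' := fun a ha oa => (s1 a ha oa).resolve_right (t1 a ha oa)
    have r2 : ∀ b ∈ A', ¬ 2 ∣ b → b ∈ A := fun b hb ob => (s2 b hb ob).resolve_right (t2 b hb ob)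
    -- if the even elements agree, we are done
    by_cases hev : ∃ e ∈ A, 2 ∣ e
    · obtain ⟨e, he, e2⟩ := hev
      have hsub : A.erase e ⊆ A' := by
        intro x hx
        rw [mem_erase] at hx
        exact r1 x hx.2 fun hx2 => hx.1 (even_unique cA hx.2 he hx2 e2)
      obtain ⟨f, hf, hfe⟩ : ∃ f ∈ A', f ∉ A.erase e := by
        by_contra hcon
        push Not at hcon
        have h3 : A'.card ≤ (A.erase e).card := card_le_card hcon
        rw [card_erase_of_mem he] at h3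
        have h4 : 0 < A.card := card_pos.2 ⟨e, he⟩
        omega
      have heq : A.erase e = A'.erase f := by
        refine eq_of_subset_of_card_le (fun x hx => ?_) ?_
        · rw [mem_erase]
          exact ⟨fun h3 => hfe (h3 ▸ hx), hsub hx⟩
        · rw [card_erase_of_mem he, card_erase_of_mem hf, hcard]
      have q1 := mul_prod_erase A (fun x => x) he
      have q2 := mul_prod_erase A' (fun x => x) hf
      have hp : 0 < ∏ x ∈ A.erase e, x := prod_pos fun x hx => by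
        have := hA x (mem_of_mem_erase hx)
        omega
      have hef : e = f := by
        refine Nat.eq_of_mul_eq_mul_right hp ?_
        rw [q1, hprod, ← q2, heq]
      rw [← insert_erase he, ← insert_erase hf, heq, hef]
    · push Not at hev
      exact eq_of_subset_of_card_le (fun a ha => r1 a ha (hev a ha)) hcard.symm.le

end Pool.Agent.Zk9.LN
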