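import Pool.Agent.Zk52.LN.Four

/-! The products of two sines at the natural numbers: equal products. -/

set_option autoImplicit false

namespace Pool.Agent.Zk9.LN

open Finset Pool.Agent.Zk79.LN
open Pool.Agent.Zk52.LN (sin_sum)

theorem cos_sum {g c : ℕ} (hg : 0 < g) (hc : ¬ 2 * g ∣ c) :
    ∑ m ∈ range (2 * g), Real.cos (Real.pi * m * c / g) = 0 := by
  have hg' : (g : ℝ) ≠ 0 := by exact_mod_cast hg.ne'
  rw [← sin_sum (a := 2 * g) (c := c) (by omega) hc (Real.pi / 2)]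
  refine sum_congr rfl fun m _ => ?_
  rw [← Real.sin_add_pi_div_two, add_comm]
  congr 2
  push_cast
  field_simp

/-- The coefficient of a product of two sines. -/
theorem coef_ab {a b y : ℕ} (ha : 2 ≤ a) (hab : a < b) (hy : a + b ≤ y) (hyg : y < a * b) :
    ∑ m ∈ range (2 * (a * b)), Real.sin (Real.pi * m / a) * Real.sin (Real.pi * m / b) *
      Real.cos (Real.pi * m * y / (a * b : ℕ)) = if a + b = y then -((a * b : ℕ) : ℝ) / 2 else 0 := by
  obtain ⟨g, hg⟩ : ∃ g, g = a * b := ⟨_, rfl⟩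
  have hg0 : 0 < g := by rw [hg]; exact Nat.mul_pos (by omega) (by omega)
  have ha' : (a : ℝ) ≠ 0 := by exact_mod_cast (by omega : a ≠ 0)
  have hb' : (b : ℝ) ≠ 0 := by exact_mod_cast (by omega : b ≠ 0)
  have hgr : (g : ℝ) = a * b := by rw [hg]; push_cast; ring
  rw [← hg] at hyg ⊢
  obtain ⟨u, hu⟩ : ∃ u, b = a + u := ⟨b - a, by omega⟩
  obtain ⟨v, hv⟩ : ∃ v, y = u + v := ⟨y - u, by omega⟩
  obtain ⟨w, hw⟩ : ∃ w, y = (a + b) + w := ⟨y - (a + b), by omega⟩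
  have key : ∀ m : ℕ, Real.sin (Real.pi * m / a) * Real.sin (Real.pi * m / b) *
      Real.cos (Real.pi * m * y / g) =
      (Real.cos (Real.pi * m * (v : ℕ) / g) + Real.cos (Real.pi * m * (y + u : ℕ) / g) -
        Real.cos (Real.pi * m * (w : ℕ) / g) - Real.cos (Real.pi * m * (y + (a + b) : ℕ) / g)) / 4 := by
    intro m
    have e1 : Real.pi * m * (v : ℕ) / g = Real.pi * m * y / g -
        (Real.pi * m / a - Real.pi * m / b) := by
      rw [hgr, hv, hu]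
      have : (a : ℝ) + u ≠ 0 := by rw [hu] at hb'; exact_mod_cast hb'
      push_cast
      field_simp
      ring
    have e2 : Real.pi * m * (y + u : ℕ) / g = Real.pi * m * y / g +
        (Real.pi * m / a - Real.pi * m / b) := by
      rw [hgr, hu]
      have : (a : ℝ) + u ≠ 0 := by rw [hu] at hb'; exact_mod_cast hb'
      push_cast
      field_simp
      ring
    have e3 : Real.pi * m * (w : ℕ) / g = Real.pi * m * y / g -
        (Real.pi * m / a + Real.pi * m / b) := by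
      rw [hgr, hw]
      push_cast
      field_simp
      ring
    have e4 : Real.pi * m * (y + (a + b) : ℕ) / g = Real.pi * m * y / g +
        (Real.pi * m / a + Real.pi * m / b) := by
      rw [hgr]
      push_cast
      field_simp
      ring
    rw [e1, e2, e3, e4, Real.cos_sub (Real.pi * m * y / g), Real.cos_add (Real.pi * m * y / g),
      Real.cos_sub (Real.pi * m * y / g), Real.cos_add (Real.pi * m * y / g), Real.cos_sub,
      Real.cos_add]
    ring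
  rw [sum_congr rfl fun m _ => key m, ← sum_div, sum_sub_distrib, sum_sub_distrib,
    sum_add_distrib]
  have n1 : ¬ 2 * g ∣ v := fun h => by
    have := Nat.le_of_dvd (by omega) h
    omega
  have n2 : ¬ 2 * g ∣ y + u := fun h => by
    have := Nat.le_of_dvd (by omega) h
    omega
  have n4 : ¬ 2 * g ∣ y + (a + b) := fun h => by
    have := Nat.le_of_dvd (by omega) h
    omega
  rw [cos_sum hg0 n1, cos_sum hg0 n2, cos_sum hg0 n4]
  split_ifs with h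
  · have hw0 : w = 0 := by omega
    rw [hw0]
    simp
    ring
  · have n3 : ¬ 2 * g ∣ w := fun h' => by
      have := Nat.le_of_dvd (by omega) h'
      omega
    rw [cos_sum hg0 n3]
    simp

theorem pair_of {A : Finset ℕ} (hA : ∀ a ∈ A, 2 ≤ a)
    (cA : ∀ a ∈ A, ∀ b ∈ A, a ≠ b → a.Coprime b) (kA : A.card = 2) :
    ∃ a b : ℕ, A = {a, b} ∧ 2 ≤ a ∧ a < b ∧ a.Coprime b ∧ ∏ x ∈ A, x = a * b ∧
      ∑ x ∈ A, x = a + b ∧ a + b < a * b := by
  obtain ⟨a, b, hab, rfl⟩ := card_eq_two.1 kA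
  have main : ∀ a b : ℕ, 2 ≤ a → a < b → a + b < a * b := by
    intro a b ha hab
    obtain ⟨k, rfl⟩ : ∃ k, a = k + 2 := ⟨a - 2, by omega⟩
    obtain ⟨l, rfl⟩ : ∃ l, b = l + 3 := ⟨b - 3, by omega⟩
    nlinarith [Nat.zero_le (k * l)]
  have h1 := hA a (by simp)
  have h2 := hA b (by simp)
  have h3 := cA a (by simp) b (by simp) hab
  rcases Nat.lt_or_gt_of_ne hab with h | h
  · exact ⟨a, b, rfl, h1, h, h3, prod_pair hab, sum_pair hab, main a b h1 h⟩
  · exact ⟨b, a, pair_comm a b, h2, h, h3.symm, by rw [prod_pair hab, mul_comm],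
      by rw [sum_pair hab, add_comm], main b a h2 h⟩

theorem coef {A : Finset ℕ} (hA : ∀ a ∈ A, 2 ≤ a)
    (cA : ∀ a ∈ A, ∀ b ∈ A, a ≠ b → a.Coprime b) (kA : A.card = 2) {g y : ℕ}
    (hg : ∏ a ∈ A, a = g) (hy : ∑ a ∈ A, a ≤ y) (hyg : y < g) :
    ∑ m ∈ range (2 * g), sp A (m : ℝ) * Real.cos (Real.pi * m * y / g) =
      if ∑ a ∈ A, a = y then -(g : ℝ) / 2 else 0 := by
  obtain ⟨a, b, h1, h2, h3, h4, h5, h6, h7⟩ := pair_of hA cA kA
  rw [h5] at hg
  rw [h6] at hy ⊢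
  subst hg
  rw [← coef_ab h2 h3 hy hyg]
  refine sum_congr rfl fun m _ => ?_
  congr 1
  unfold sp
  rw [h1, prod_pair h3.ne]

/-- A pair is determined by its sum and its product. -/
theorem eq_of_sum {A B : Finset ℕ} (hA : ∀ a ∈ A, 2 ≤ a) (hB : ∀ a ∈ B, 2 ≤ a)
    (cA : ∀ a ∈ A, ∀ b ∈ A, a ≠ b → a.Coprime b) (cB : ∀ a ∈ B, ∀ b ∈ B, a ≠ b → a.Coprime b)
    (kA : A.card = 2) (kB : B.card = 2) (e1 : ∏ a ∈ A, a = ∏ b ∈ B, b)
    (e2 : ∑ a ∈ A, a = ∑ b ∈ B, b) : A = B := by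
  obtain ⟨a, b, h1, h2, h3, h4, h5, h6, h7⟩ := pair_of hA cA kA
  obtain ⟨c, d, i1, i2, i3, i4, i5, i6, i7⟩ := pair_of hB cB kB
  rw [h5, i5] at e1
  rw [h6, i6] at e2
  have hz : ((a : ℤ) - c) * ((a : ℤ) - d) = 0 := by
    have z1 : (a : ℤ) * b = c * d := by exact_mod_cast e1
    have z2 : (a : ℤ) + b = c + d := by exact_mod_cast e2
    have z3 : (b : ℤ) = c + d - a := by linarith
    rw [z3] at z1
    linarith [z1]
  rcases mul_eq_zero.1 hz with h | h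
  · have : a = c := by omega
    have : b = d := by omega
    rw [h1, i1]
    congr 1
    · congr 1
  · exfalso
    omega

theorem core {A B B' : Finset ℕ} (hA : ∀ a ∈ A, 2 ≤ a) (hB : ∀ a ∈ B, 2 ≤ a)
    (hB' : ∀ a ∈ B', 2 ≤ a) (cA : ∀ a ∈ A, ∀ b ∈ A, a ≠ b → a.Coprime b)
    (cB : ∀ a ∈ B, ∀ b ∈ B, a ≠ b → a.Coprime b) (cB' : ∀ a ∈ B', ∀ b ∈ B', a ≠ b → a.Coprime b)
    (kA : A.card = 2) (kB : B.card = 2) (kB' : B'.card = 2) {α β α' β' : ℝ} (hβ : 0 < β)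
    (hβ' : 0 < β') (e1 : ∏ a ∈ A, a = ∏ b ∈ B, b) (e2 : ∏ a ∈ A, a = ∏ b ∈ B', b)
    (hc : α + (if ∑ b ∈ B, b = ∑ a ∈ A, a then β else 0) =
      α' + (if ∑ b ∈ B', b = ∑ a ∈ A, a then β' else 0))
    (h : ∀ m : ℕ, α * sp A m + β * sp B m = α' * sp A m + β' * sp B' m) : B = B' := by
  have p1 : ∀ C : Finset ℕ, (∀ a ∈ C, 2 ≤ a) → 0 < sp C ((1 : ℕ) : ℝ) := fun C hC => by
    rw [Nat.cast_one]; exact sp_one_pos hC
  by_cases s1 : ∑ b ∈ B, b = ∑ a ∈ A, a <;> by_cases s2 : ∑ b ∈ B', b = ∑ a ∈ A, a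
  · rw [eq_of_sum hB hB' cB cB' kB kB' (e1.symm.trans e2) (s1.trans s2.symm)]
  · exfalso
    have hBA := eq_of_sum hB hA cB cA kB kA e1.symm s1
    subst hBA
    rw [if_pos rfl, if_neg s2, add_zero] at hc
    have h1 := h 1
    have h2 := mul_pos hβ' (p1 B' hB')
    have h3 : α * sp B ((1 : ℕ) : ℝ) + β * sp B ((1 : ℕ) : ℝ) = α' * sp B ((1 : ℕ) : ℝ) := by
      rw [← add_mul, hc]
    linarith
  · exfalso
    have hBA := eq_of_sum hB' hA cB' cA kB' kA e2.symm s2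
    subst hBA
    rw [if_neg s1, if_pos rfl, add_zero] at hc
    have h1 := h 1
    have h2 := mul_pos hβ (p1 B hB)
    have h3 : α * sp B' ((1 : ℕ) : ℝ) = α' * sp B' ((1 : ℕ) : ℝ) + β' * sp B' ((1 : ℕ) : ℝ) := by
      rw [← add_mul, hc]
    linarith
  · rw [if_neg s1, if_neg s2, add_zero, add_zero] at hc
    subst hc
    refine set_eq hB hB' cB cB' fun m => ?_
    have h1 := h m
    have h2 : β * sp B m = β' * sp B' m := by linarith
    constructor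
    · intro h0
      rw [h0, mul_zero] at h2
      exact (mul_eq_zero.1 h2.symm).resolve_left hβ'.ne'
    · intro h0
      rw [h0, mul_zero] at h2
      exact (mul_eq_zero.1 h2).resolve_left hβ.ne'

/-- Equal products, sets with two elements. -/
theorem four_pairs {A B A' B' : Finset ℕ} (hA : ∀ a ∈ A, 2 ≤ a) (hB : ∀ a ∈ B, 2 ≤ a)
    (hA' : ∀ a ∈ A', 2 ≤ a) (hB' : ∀ a ∈ B', 2 ≤ a)
    (cA : ∀ a ∈ A, ∀ b ∈ A, a ≠ b → a.Coprime b) (cB : ∀ a ∈ B, ∀ b ∈ B, a ≠ b → a.Coprime b)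
    (cA' : ∀ a ∈ A', ∀ b ∈ A', a ≠ b → a.Coprime b)
    (cB' : ∀ a ∈ B', ∀ b ∈ B', a ≠ b → a.Coprime b) (kA : A.card = 2) (kB : B.card = 2)
    (kA' : A'.card = 2) (kB' : B'.card = 2) {α β α' β' : ℝ} (hα : 0 < α) (hβ : 0 < β)
    (hα' : 0 < α') (hβ' : 0 < β') (e1 : ∏ a ∈ A, a = ∏ b ∈ B, b)
    (e2 : ∏ a ∈ A', a = ∏ b ∈ B', b) (e3 : ∏ a ∈ A, a = ∏ a ∈ A', a)
    (h : ∀ m : ℕ, α * sp A m + β * sp B m = α' * sp A' m + β' * sp B' m) :
    (A = A' ∧ B = B') ∨ (A = B' ∧ B = A') := by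
  obtain ⟨g, hg⟩ : ∃ g, g = ∏ a ∈ A, a := ⟨_, rfl⟩
  have gA : ∏ a ∈ A, a = g := hg.symm
  have gB : ∏ a ∈ B, a = g := by rw [← e1, gA]
  have gA' : ∏ a ∈ A', a = g := by rw [← e3, gA]
  have gB' : ∏ a ∈ B', a = g := by rw [← e2, gA']
  have lt : ∀ C : Finset ℕ, (∀ a ∈ C, 2 ≤ a) → (∀ a ∈ C, ∀ b ∈ C, a ≠ b → a.Coprime b) →
      C.card = 2 → ∏ a ∈ C, a = g → ∑ a ∈ C, a < g := by
    intro C hC cC kC gC
    obtain ⟨a, b, h1, h2, h3, h4, h5, h6, h7⟩ := pair_of hC cC kC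
    rw [h6, ← gC, h5]
    exact h7
  have lA := lt A hA cA kA gA
  have lB := lt B hB cB kB gB
  have lA' := lt A' hA' cA' kA' gA'
  have lB' := lt B' hB' cB' kB' gB'
  have g0 : (g : ℝ) ≠ 0 := by
    have : 0 < g := by omega
    exact_mod_cast this.ne'
  -- the greatest sum
  obtain ⟨y, hy⟩ : ∃ y, y = max (max (∑ a ∈ A, a) (∑ a ∈ B, a))
    (max (∑ a ∈ A', a) (∑ a ∈ B', a)) := ⟨_, rfl⟩
  have yA : ∑ a ∈ A, a ≤ y := by rw [hy]; simp
  have yB : ∑ a ∈ B, a ≤ y := by rw [hy]; simp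
  have yA' : ∑ a ∈ A', a ≤ y := by rw [hy]; simp
  have yB' : ∑ a ∈ B', a ≤ y := by rw [hy]; simp
  have yg : y < g := by
    rw [hy]
    exact max_lt (max_lt lA lB) (max_lt lA' lB')
  have hyor : (∑ a ∈ A, a = y ∨ ∑ a ∈ B, a = y) ∨ (∑ a ∈ A', a = y ∨ ∑ a ∈ B', a = y) := by
    rw [hy]
    omega
  have hsum : α * (if ∑ a ∈ A, a = y then -(g : ℝ) / 2 else 0) +
      β * (if ∑ a ∈ B, a = y then -(g : ℝ) / 2 else 0) =
      α' * (if ∑ a ∈ A', a = y then -(g : ℝ) / 2 else 0) +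
      β' * (if ∑ a ∈ B', a = y then -(g : ℝ) / 2 else 0) := by
    rw [← coef hA cA kA gA yA yg, ← coef hB cB kB gB yB yg, ← coef hA' cA' kA' gA' yA' yg,
      ← coef hB' cB' kB' gB' yB' yg, mul_sum, mul_sum, mul_sum, mul_sum, ← sum_add_distrib,
      ← sum_add_distrib]
    refine sum_congr rfl fun m _ => ?_
    have := h m
    linear_combination (Real.cos (Real.pi * m * y / g)) * this
  have hcoef : (if ∑ a ∈ A, a = y then α else 0) + (if ∑ a ∈ B, a = y then β else 0) =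
      (if ∑ a ∈ A', a = y then α' else 0) + (if ∑ a ∈ B', a = y then β' else 0) := by
    have hg2 : -(g : ℝ) / 2 ≠ 0 := by
      simpa using g0
    apply mul_right_cancel₀ hg2
    simp only [add_mul, ite_mul, zero_mul]
    simp only [mul_ite, mul_zero] at hsum
    exact hsum
  have fin : ∀ (A B A' B' : Finset ℕ) (α β α' β' : ℝ), (∀ a ∈ A, 2 ≤ a) → (∀ a ∈ B, 2 ≤ a) →
      (∀ a ∈ A', 2 ≤ a) → (∀ a ∈ B', 2 ≤ a) → (∀ a ∈ A, ∀ b ∈ A, a ≠ b → a.Coprime b) →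
      (∀ a ∈ B, ∀ b ∈ B, a ≠ b → a.Coprime b) → (∀ a ∈ A', ∀ b ∈ A', a ≠ b → a.Coprime b) →
      (∀ a ∈ B', ∀ b ∈ B', a ≠ b → a.Coprime b) → A.card = 2 → B.card = 2 → A'.card = 2 →
      B'.card = 2 → 0 < β → 0 < β' → ∏ a ∈ A, a = g → ∏ a ∈ B, a = g → ∏ a ∈ A', a = g →
      ∏ a ∈ B', a = g → ((if ∑ a ∈ A, a = y then α else 0) + (if ∑ a ∈ B, a = y then β else 0) =
      (if ∑ a ∈ A', a = y then α' else 0) + (if ∑ a ∈ B', a = y then β' else 0)) →
      (∀ m : ℕ, α * sp A m + β * sp B m = α' * sp A' m + β' * sp B' m) →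
      ∑ a ∈ A, a = y → ∑ a ∈ A', a = y → A = A' ∧ B = B' := by
    intro A B A' B' α β α' β' hA hB hA' hB' cA cB cA' cB' kA kB kA' kB' hβ hβ' gA gB gA' gB'
      hcoef h sA sA'
    have e := eq_of_sum hA hA' cA cA' kA kA' (gA.trans gA'.symm) (sA.trans sA'.symm)
    subst e
    refine ⟨rfl, core hA hB hB' cA cB cB' kA kB kB' hβ hβ' (gA.trans gB.symm)
      (gA.trans gB'.symm) (α := α) (α' := α') ?_ h⟩
    rw [sA]
    rw [if_pos sA, if_pos sA] at hcoef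
    exact hcoef
  -- one set on each side has the greatest sum
  have hleft : ∑ a ∈ A, a = y ∨ ∑ a ∈ B, a = y := by
    by_contra hcon
    push Not at hcon
    rw [if_neg hcon.1, if_neg hcon.2] at hcoef
    rcases hyor with (h1 | h1) | (h1 | h1)
    · exact hcon.1 h1
    · exact hcon.2 h1
    · rw [if_pos h1] at hcoef
      split_ifs at hcoef <;> linarith
    · rw [if_pos h1] at hcoef
      split_ifs at hcoef <;> linarith
  have hright : ∑ a ∈ A', a = y ∨ ∑ a ∈ B', a = y := by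
    by_contra hcon
    push Not at hcon
    rw [if_neg hcon.1, if_neg hcon.2] at hcoef
    rcases hyor with (h1 | h1) | (h1 | h1)
    · rw [if_pos h1] at hcoef
      split_ifs at hcoef <;> linarith
    · rw [if_pos h1] at hcoef
      split_ifs at hcoef <;> linarith
    · exact hcon.1 h1
    · exact hcon.2 h1
  rcases hleft with s1 | s1 <;> rcases hright with s2 | s2
  · exact Or.inl (fin A B A' B' α β α' β' hA hB hA' hB' cA cB cA' cB' kA kB kA' kB' hβ hβ'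
      gA gB gA' gB' hcoef h s1 s2)
  · have := fin A B B' A' α β β' α' hA hB hB' hA' cA cB cB' cA' kA kB kB' kA' hβ hα'
      gA gB gB' gA' (by rw [hcoef, add_comm]) (fun m => by rw [h m, add_comm]) s1 s2
    exact Or.inr this
  · have := fin B A A' B' β α α' β' hB hA hA' hB' cB cA cA' cB' kB kA kA' kB' hα hβ'
      gB gA gA' gB' (by rw [add_comm, hcoef]) (fun m => by rw [← h m, add_comm]) s1 s2
    exact Or.inr ⟨this.2, this.1⟩
  · have := fin B A B' A' β α β' α' hB hA hB' hA' cB cA cB' cA' kB kA kB' kA' hα hα'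
      gB gA gB' gA' (by rw [add_comm, hcoef, add_comm])
      (fun m => by rw [add_comm, h m, add_comm]) s1 s2
    exact Or.inl ⟨this.2, this.1⟩

end Pool.Agent.Zk9.LN
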